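import Mathlib
import Pool.Agent.Lib.MP_c82530_nt.AG.NF
import Pool.Agent.Lib.MP_c82530_nt.AG.Fin
import Pool.Agent.Lib.MP_c82530_nt.AH.Stm
import Pool.Agent.Lib.MP_c82530_nt.AJ.Stm

set_option autoImplicit false

/-!
# Tuples from several number fields, unconditional clause: pieces
-/

namespace Pool.Agent.Lib.MP_c82530_nt.AK

open Set Pool.Agent.Lib.MP_c82530_nt Pool.Agent.Lib.MP_c82530_nt.AA
  Pool.Agent.Lib.MP_c82530_nt.AG Module Filter Topology
open NumberField IsDedekindDomain

/-- piece GNR: `theorem p_gnr (hdvn : AJ.S_dvn) : S_gnr`, a function on the primes which is not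
exceptional.
Proof: the set of the primes of `K` is countable, and a transcendence basis of `ℂ` over `ℚ` is
uncountable (Mathlib: `Algebra.IsAlgebraic.cardinalMk_le_max`, `Cardinal.mk_complex`, or
`IsAlgClosed.cardinal_eq_cardinal_transcendence_basis_of_aleph0_lt'`), so there is an algebraically
independent family `z` indexed by the primes. The independent sets of the matroid `AM` are the
algebraically independent sets, so `AM.eRk (z '' A)` is the cardinality of `A`; if it is at most `t`
then `A` is finite, and the sum of `1 / qn K v` over all finite sets of primes would be bounded by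
`C + ∑ v ∈ A, 1 / qn K v`, against `AJ.S_dvn`. -/
def S_gnr : Prop := ∀ (K : Type) [Field K] [NumberField K],
  ∃ z : HeightOneSpectrum (𝓞 K) → ℂ, ¬ AH.EXC (qn K) z

/-- the principal ideals -/
def Pr (K : Type) [Field K] [NumberField K] : Set (HeightOneSpectrum (𝓞 K) →₀ ℕ) :=
  {m | ∃ β : 𝓞 K, Ideal.span {β} = toI m}

/-- piece PSM: `theorem p_psm (hfra : S_fra) (hshift : S_shift) (hcls : S_cls) (hcnt : S_cnt)`
`(htoi : S_toi) (hcnz : S_cnz) : S_psm`, most principal ideals have no prime factor outside `B`.
Proof: by `S_cnt` (from `S_cnz`) the weight `Wt (qn K) univ (L x)` is at least `c' * log x` and at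
most `C * log x` for large `x` (`Mt0` with `P = ∅`); by `S_shift` with `A = univ`, `B = Pr K` and
`J` from `S_cls` the weight of `Pr K` is at least `δ * log x` for large `x`. Let `c = δ / C`
(or half of it). If the weight of the primes outside `B` is at most `c * ε` then by `S_fra` the
weight of the ideals in `L x` with a prime factor outside `B` is at most
`c * ε * Wt (qn K) univ (L x)` (the total minus that of the others), at most
`ε * δ * log x ≤ ε * Wt (qn K) (Pr K) (L x)`. -/
def S_psm : Prop := ∀ (K : Type) [Field K] [NumberField K]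
  (L : ℕ → Finset (HeightOneSpectrum (𝓞 K) →₀ ℕ)), IsL (qn K) L →
  (∃ δ : ℝ, 0 < δ ∧ ∀ᶠ x : ℕ in atTop, δ * Real.log x ≤ Wt (qn K) (Pr K) (L x)) ∧
  ∃ c : ℝ, 0 < c ∧ ∀ (B : Set (HeightOneSpectrum (𝓞 K))) (ε : ℝ), 0 ≤ ε →
    (∀ P : Finset (HeightOneSpectrum (𝓞 K)), (∀ v ∈ P, v ∉ B) →
      ∑ v ∈ P, (qn K v : ℝ)⁻¹ ≤ c * ε) →
    ∀ᶠ x : ℕ in atTop, (1 - ε) * Wt (qn K) (Pr K) (L x) ≤
      Wt (qn K) (Pr K ∩ {m | ∀ v ∈ m.support, v ∈ B}) (L x)

/-- piece SPL: if `K` is exceptional then almost all real logarithms of the prime numbers all of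
whose `K`-primes have norm `p` are algebraic over a finitely generated field.
Proof: take `A`, `T` from `ExcNF σ`. If `A` is not empty, `n = 0` shows that all logarithms of all
units are algebraic over `ℚ(T)`. For a prime number `p ∈ SP K` such that all `v` containing `p` are
in `A`: with `h, γ` as in `S_gen` (class number) `p ^ h` and `∏ γ v ^ (e v)` generate the same ideal,
so `h * log p` is the sum of the `e v * log (σ (γ v))` and of a logarithm of a unit. So `log p` is
algebraic over `ℚ(T)`. For the other `p ∈ SP K` choose `v p ∉ A` containing `p`, of norm `p`;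
`p ↦ v p` is injective, so the sum of `1 / p` converges. If `A` is empty all `p ∈ SP K` are of this
kind (take `T = ∅`). Compare AJ/P_nrm.lean and AH/P_exn.lean; it is convenient to use
`theorem p_spl (hlg : S_lg) (htoi : S_toi) (hgen : S_gen) (hexn : AH.S_exn) : S_spl`, with
`EXC (qn K) (fn σ h γ)` and the finite dimensional space of `S_lg`. -/
def S_spl : Prop := ∀ (K : Type) [Field K] [NumberField K] (σ : K →+* ℂ), AH.ExcNF σ →
  ∃ T : Set ℂ, T.Finite ∧ Summable ({p : ℕ | p.Prime ∧ p ∈ AJ.SP K ∧
    ¬ IsAlgebraic (IntermediateField.adjoin ℚ T) ((Real.log p : ℝ) : ℂ)}.indicator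
      (fun p : ℕ => (p : ℝ)⁻¹))

end Pool.Agent.Lib.MP_c82530_nt.AK
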