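import Mathlib
import Pool.Agent.Lib.MP_c82530_nt.AK.Stm
import Pool.Agent.Lib.MP_c82530_nt.AH.Fin

set_option autoImplicit false

namespace Pool.Agent.Lib.MP_c82530_nt.AK

open Set Pool.Agent.Lib.MP_c82530_nt Pool.Agent.Lib.MP_c82530_nt.AA
  Pool.Agent.Lib.MP_c82530_nt.AG Module Filter Topology
open Pool.Agent.Lib.MP_c82530_nt.AH hiding S_ind
open Pool.Agent.Lib.MP_c82530_nt.AB (KS InL mem_KS AIx good_span')
open NumberField IsDedekindDomain

section Abs

variable {κ : ℕ → Type} {Q : ∀ j, κ j → ℕ} {L : ∀ j, ℕ → Finset (κ j →₀ ℕ)} {r : ℕ}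

/-- a difference and a union -/
lemma wtF_diff {D D1 D2 D3 : Set (∀ i : Fin r, κ i →₀ ℕ)} (h21 : D2 ⊆ D1)
    (h : ∀ b ∈ D, (b ∈ D1 ∧ b ∉ D2) ∨ b ∈ D3) (x : ℕ) :
    WtF Q L D x ≤ WtF Q L D1 x - WtF Q L D2 x + WtF Q L D3 x := by
  classical
  unfold WtF
  rw [← Finset.sum_sub_distrib, ← Finset.sum_add_distrib]
  apply Finset.sum_le_sum
  intro b _
  have h0 : 0 ≤ ∏ i : Fin r, (nm (Q i) (b i) : ℝ)⁻¹ :=
    Finset.prod_nonneg fun i _ => by positivity
  simp only [Set.indicator]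
  by_cases hD : b ∈ D
  · rw [if_pos hD]
    rcases h b hD with ⟨h1, h2⟩ | h3
    · rw [if_pos h1, if_neg h2]
      by_cases h3 : b ∈ D3
      · rw [if_pos h3]; linarith
      · rw [if_neg h3]; linarith
    · rw [if_pos h3]
      by_cases h2 : b ∈ D2
      · rw [if_pos h2, if_pos (h21 h2)]; linarith
      · rw [if_neg h2]
        by_cases h1 : b ∈ D1
        · rw [if_pos h1]; linarith
        · rw [if_neg h1]; linarith
  · rw [if_neg hD]
    by_cases h2 : b ∈ D2
    · rw [if_pos h2, if_pos (h21 h2)]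
      by_cases h3 : b ∈ D3
      · rw [if_pos h3]; linarith
      · rw [if_neg h3]; linarith
    · rw [if_neg h2]
      by_cases h1 : b ∈ D1
      · rw [if_pos h1]
        by_cases h3 : b ∈ D3
        · rw [if_pos h3]; linarith
        · rw [if_neg h3]; linarith
      · rw [if_neg h1]
        by_cases h3 : b ∈ D3
        · rw [if_pos h3]; linarith
        · rw [if_neg h3]; linarith

end Abs

/-- the first clause: no hypothesis on the fields -/
theorem main0 (hinf : AC.S_inf) (hral : AC.S_ral) (hlos : S_los) (hfc : S_fc)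
    (hmta : S_mta) (hcpt : S_cpt) (hsnoc : AC.S_snoc) (hfree : AC.S_free) (hind : AH.S_ind)
    (hmon : AC.S_mon) (hswap : AC.S_swap) (hfge : AC.S_fge) (hfin : AC.S_fin) (hexs : S_exs)
    (hprod : S_prod) (hbrr : S_brr) (hcnt : S_cnt) (htoi : S_toi) (hisl : S_isl)
    (hcnz : S_cnz) (hgen : S_gen) (hlg : S_lg) (hgnr : S_gnr) (hpsm : S_psm)
    (k : ℕ → Type) [∀ j, Field (k j)] [∀ j, NumberField (k j)] (σ : ∀ j, k j →+* ℂ)
    (E : IntermediateField ℚ ℂ) (hE : E.FG) (n r : ℕ) (ε : ℝ) (hε : 0 < ε) :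
    ∃ V : Submodule ℚ ℂ, FiniteDimensional ℚ V ∧ (∀ v ∈ V, IsAlgebraic ℚ v) ∧
      ∀ᶠ x : ℕ in atTop, idsF k {I : ∀ j : Fin r, Ideal (𝓞 (k j)) |
        ∃ (β : ∀ j : Fin r, 𝓞 (k j)) (l : Fin r → ℂ) (α : Fin n → ℂ),
          (∀ j : Fin r, Ideal.span {β j} = I j ∧ Complex.exp (l j) = σ j (β j)) ∧
          (∀ i, IsAlgebraic ℚ (α i)) ∧ LinearIndependent ℚ α ∧
          Disjoint (Submodule.span ℚ (range α)) V ∧
          ¬ AlgebraicIndependent (KL ((E : Set ℂ) ∪ range l)) (fun i => Complex.exp (α i))} x ≤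
        ε * idsF k {I : ∀ j : Fin r, Ideal (𝓞 (k j)) |
          ∀ j : Fin r, ∃ β : 𝓞 (k j), Ideal.span {β} = I j} x := by
  classical
  choose L hL using fun j => hisl (k j)
  choose κ hκ hlim0 using fun j => hcnz (k j) (L j) (hL j)
  have hq : ∀ j v, 2 ≤ qn (k j) v := fun j => (htoi (k j)).1
  have hMt : ∀ j, Mt0 (qn (k j)) (L j) := fun j =>
    (hcnt _ (qn (k j)) (L j) (hq j) (hL j) (κ j) (hκ j) (hlim0 j)).1
  choose h γ hγ using fun j => hgen (k j)
  choose Ck hCk hlgk using fun j => hlg (k j) (σ j) (h j) (γ j) (hγ j)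
  choose hδ0 c hc hsm using fun j => hpsm (k j) (L j) (hL j)
  choose δ hδ hδ1 using hδ0
  choose z hz using fun j => hgnr (k j)
  -- the parameter
  obtain ⟨e, he0, he1, he2⟩ : ∃ e : ℝ, 0 < e ∧ e ≤ 1 ∧ (r : ℝ) * e ≤ ε / 2 := by
    refine ⟨min 1 (ε / (2 * ((r : ℝ) + 1))), by positivity, min_le_left _ _, ?_⟩
    calc (r : ℝ) * min 1 (ε / (2 * ((r : ℝ) + 1))) ≤ (r : ℝ) * (ε / (2 * ((r : ℝ) + 1))) :=
          mul_le_mul_of_nonneg_left (min_le_right _ _) (Nat.cast_nonneg r)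
      _ = ε / 2 * ((r : ℝ) / ((r : ℝ) + 1)) := by field_simp
      _ ≤ ε / 2 * 1 := by
          apply mul_le_mul_of_nonneg_left _ (by positivity)
          rw [div_le_one (by positivity)]
          linarith
      _ = ε / 2 := mul_one _
  -- functions and sets of primes
  have hsel : ∀ j, ∃ (F : HeightOneSpectrum (𝓞 (k j)) → ℂ) (B : Set (HeightOneSpectrum (𝓞 (k j))))
      (L' : Set ℂ), ¬ EXC (qn (k j)) F ∧ L'.Finite ∧
      (∀ P : Finset (HeightOneSpectrum (𝓞 (k j))), (∀ v ∈ P, v ∉ B) →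
        ∑ v ∈ P, (qn (k j) v : ℝ)⁻¹ ≤ c j * e) ∧
      ∀ m : HeightOneSpectrum (𝓞 (k j)) →₀ ℕ, (∀ v ∈ m.support, v ∈ B) →
        Fv (fn (σ j) (h j) (γ j)) m ∈ AM.closure (L' ∪ {Fv F m}) := by
    intro j
    have hce : 0 < c j * e := mul_pos (hc j) he0
    by_cases hex : EXC (qn (k j)) (fn (σ j) (h j) (γ j))
    · obtain ⟨B, hB1, hB2⟩ := hexs _ (qn (k j)) _ (hq j) hex (c j * e) hce
      obtain ⟨L', hL', hBL, -⟩ := hfin _ ⊥ hB2 IntermediateField.fg_bot
      refine ⟨z j, B, L', hz j, hL', hB1, fun m hm => ?_⟩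
      have h1 := AM.closure_subset_closure hBL (fv_closure hm)
      rw [Matroid.closure_closure] at h1
      exact AM.closure_subset_closure subset_union_left h1
    · refine ⟨fn (σ j) (h j) (γ j), univ, ∅, hex, finite_empty, ?_, fun m _ => ?_⟩
      · intro P hP
        have : P = ∅ := Finset.eq_empty_of_forall_notMem fun v hv => hP v hv (mem_univ v)
        rw [this, Finset.sum_empty]
        exact hce.le
      · apply AM.subset_closure _ (subset_univ _)
        right; rfl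
  choose F B L' hF hL' hB hFB using hsel
  obtain ⟨L₀, hL₀, hcl⟩ := hfge E hE
  choose T hT hCT using fun j => fd_closure (hCk j)
  set L₁ : Set ℂ := L₀ ∪ ⋃ j : Fin r, (T j ∪ L' j) with hL₁
  have hL₁f : L₁.Finite := hL₀.union (finite_iUnion fun j => (hT j).union (hL' j))
  have hTL : ∀ j : Fin r, T j ⊆ L₁ := fun j => subset_union_left.trans
    ((subset_iUnion (fun j : Fin r => T j ∪ L' j) j).trans subset_union_right)
  have hLL : ∀ j : Fin r, L' j ⊆ L₁ := fun j => subset_union_right.trans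
    ((subset_iUnion (fun j : Fin r => T j ∪ L' j) j).trans subset_union_right)
  obtain ⟨V, hVfd, hV, hcore⟩ := exists_core hL₁f
  have ht := tuplesC (Q := fun j => qn (k j)) (F := F) (L := L) hinf hral hlos hfc hmta hcpt
    hsnoc hfree hind hq hL hMt hF hL₁f
    (V := V) ⟨hVfd, hV⟩ (fun W hW1 hW2 h => (hcore W hW1 hW2).2.2.mpr h) r n
  refine ⟨V, hVfd, hV, ?_⟩
  -- the bad tuples
  set D : Set (∀ i : Fin r, HeightOneSpectrum (𝓞 (k i)) →₀ ℕ) :=
    {b | (fun i => toI (b i)) ∈ {I : ∀ j : Fin r, Ideal (𝓞 (k j)) |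
        ∃ (β : ∀ j : Fin r, 𝓞 (k j)) (l : Fin r → ℂ) (α : Fin n → ℂ),
          (∀ j : Fin r, Ideal.span {β j} = I j ∧ Complex.exp (l j) = σ j (β j)) ∧
          (∀ i, IsAlgebraic ℚ (α i)) ∧ LinearIndependent ℚ α ∧
          Disjoint (Submodule.span ℚ (range α)) V ∧
          ¬ AlgebraicIndependent (KL ((E : Set ℂ) ∪ range l))
            (fun i => Complex.exp (α i))}} with hD
  set D1 : Set (∀ i : Fin r, HeightOneSpectrum (𝓞 (k i)) →₀ ℕ) :=
    {b | ∀ i : Fin r, b i ∈ Pr (k i)} with hD1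
  set D2 : Set (∀ i : Fin r, HeightOneSpectrum (𝓞 (k i)) →₀ ℕ) :=
    {b | ∀ i : Fin r, b i ∈ Pr (k i) ∩ {m | ∀ v ∈ m.support, v ∈ B i}} with hD2
  have h21 : D2 ⊆ D1 := fun b hb i => (hb i).1
  have hbad : ∀ b ∈ D, (b ∈ D1 ∧ b ∉ D2) ∨ b ∈ DC F n L₁ r := by
    rintro b ⟨β, l, α, hβ, hα, hlin, hdis, hAI⟩
    by_cases hb3 : b ∈ DC F n L₁ r
    · right; exact hb3
    · left
      have hb1 : b ∈ D1 := fun i => ⟨β i, (hβ i).1⟩
      refine ⟨hb1, fun hb2 => hAI ?_⟩
      have hfd : FiniteDimensional ℚ (Submodule.span ℚ (range α)) :=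
        FiniteDimensional.span_of_finite ℚ (finite_range α)
      have h5 : dl L₁ (Submodule.span ℚ (range α)) = 0 := by
        rw [(hcore _ hfd (span_alg hα)).1, hdis.eq_bot, dl_bot hL₁f]
      have h6 := (dl_eq_zero_iff hL₁f hα hlin).mp h5
      have h7 : AlgebraicIndependent (KL (expSet (Submodule.span ℚ (range α)) ∪ L₁))
          (fun i : Fin r => Fv (F i) (b i)) := by
        by_contra hcon
        exact hb3 ⟨_, good_span' hα, (finrank_range_le_card α).trans
          (by rw [Fintype.card_fin]), hcon⟩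
      have h8 : AlgebraicIndependent (KL (L₁ ∪ range fun i => Complex.exp (α i)))
          (fun i : Fin r => Fv (F i) (b i)) := by
        refine hmon _ _ ?_ r _ h7
        intro w hw
        have h9 : w ∈ AM.closure (L₁ ∪ range fun i => Complex.exp (α i)) :=
          AM.subset_closure _ (subset_univ _) hw
        rwa [union_comm, closure_exp_union] at h9
      have h10 := hswap L₁ n r _ _ h6 h8
      refine hmon _ _ ?_ n _ h10
      apply union_subset
      · intro w hw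
        have h11 : w ∈ AM.closure (E : Set ℂ) := AM.subset_closure _ (subset_univ _) hw
        rw [hcl] at h11
        exact AM.closure_subset_closure (subset_union_left.trans subset_union_left) h11
      · rintro _ ⟨j, rfl⟩
        have h12 := hCT j _ (hlgk j (b j) (β j) (l j) (hβ j).1 (hβ j).2)
        have e : l j = (l j - Fv (fn (σ j) (h j) (γ j)) (b j)) +
            Fv (fn (σ j) (h j) (γ j)) (b j) := by ring
        rw [e]
        apply AH.add_mem_cl'
        · exact AM.closure_subset_closure ((hTL j).trans subset_union_left) h12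
        · refine AM.closure_subset_closure ?_ (hFB j (b j) (hb2 j).2)
          apply union_subset ((hLL j).trans subset_union_left)
          intro w hw
          right
          exact ⟨j, (mem_singleton_iff.mp hw).symm⟩
  -- weights
  have hev1 : ∀ᶠ x : ℕ in atTop, ∀ j : Fin r, (1 - e) * Wt (qn (k j)) (Pr (k j)) (L j x) ≤
      Wt (qn (k j)) (Pr (k j) ∩ {m | ∀ v ∈ m.support, v ∈ B j}) (L j x) := by
    rw [eventually_all]
    intro j
    exact hsm j (B j) e he0.le (hB j)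
  have hev2 : ∀ᶠ x : ℕ in atTop, ∀ j : Fin r, δ j * Real.log x ≤
      Wt (qn (k j)) (Pr (k j)) (L j x) := by
    rw [eventually_all]
    intro j
    exact hδ1 j
  have hδp : 0 < ∏ j : Fin r, δ j := Finset.prod_pos fun j _ => hδ j
  have hev3 : ∀ᶠ x : ℕ in atTop, WtF (fun j => qn (k j)) L (DC F n L₁ r) x /
      (Real.log x) ^ r < ε / 2 * ∏ j : Fin r, δ j := by
    have := ht
    unfold LNF at this
    exact this.eventually_lt_const (by positivity)
  filter_upwards [hev1, hev2, hev3, eventually_gt_atTop 1] with x hx1 hx2 hx3 hx4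
  have hlog : 0 < Real.log x := Real.log_pos (by exact_mod_cast hx4)
  unfold idsF
  rw [hbrr k L hL, hbrr k L hL]
  have hW1 : WtF (fun j => qn (k j)) L D1 x = ∏ j : Fin r, Wt (qn (k j)) (Pr (k j)) (L j x) :=
    hprod _ _ L r (fun j => Pr (k j)) x
  have hW2 : WtF (fun j => qn (k j)) L D2 x = ∏ j : Fin r, Wt (qn (k j))
      (Pr (k j) ∩ {m | ∀ v ∈ m.support, v ∈ B j}) (L j x) :=
    hprod _ _ L r (fun j => Pr (k j) ∩ {m | ∀ v ∈ m.support, v ∈ B j}) x
  have hW1p : (∏ j : Fin r, δ j) * (Real.log x) ^ r ≤ WtF (fun j => qn (k j)) L D1 x := by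
    rw [hW1]
    calc (∏ j : Fin r, δ j) * (Real.log x) ^ r = ∏ j : Fin r, (δ j * Real.log x) := by
          rw [Finset.prod_mul_distrib, Finset.prod_const, Finset.card_univ, Fintype.card_fin]
      _ ≤ _ := Finset.prod_le_prod (fun j _ => mul_nonneg (hδ j).le hlog.le) fun j _ => hx2 j
  have hW1n : 0 ≤ WtF (fun j => qn (k j)) L D1 x := wtF_nonneg _ _
  have hW2p : (1 - ε / 2) * WtF (fun j => qn (k j)) L D1 x ≤
      WtF (fun j => qn (k j)) L D2 x := by
    have h1 : (1 - e) ^ r * WtF (fun j => qn (k j)) L D1 x ≤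
        WtF (fun j => qn (k j)) L D2 x := by
      rw [hW1, hW2]
      calc (1 - e) ^ r * ∏ j : Fin r, Wt (qn (k j)) (Pr (k j)) (L j x) =
          ∏ j : Fin r, ((1 - e) * Wt (qn (k j)) (Pr (k j)) (L j x)) := by
            rw [Finset.prod_mul_distrib, Finset.prod_const, Finset.card_univ, Fintype.card_fin]
        _ ≤ _ := Finset.prod_le_prod (fun j _ => mul_nonneg (by linarith) (wt_nonneg _ _))
            fun j _ => hx1 j
    refine le_trans (mul_le_mul_of_nonneg_right ?_ hW1n) h1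
    have h2 := one_add_mul_le_pow (a := -e) (by linarith) r
    have h3 : (1 + -e) ^ r = (1 - e) ^ r := by ring
    rw [h3] at h2
    nlinarith
  have hW3 : WtF (fun j => qn (k j)) L (DC F n L₁ r) x ≤
      ε / 2 * WtF (fun j => qn (k j)) L D1 x := by
    rw [div_lt_iff₀ (pow_pos hlog r)] at hx3
    calc WtF (fun j => qn (k j)) L (DC F n L₁ r) x ≤
        ε / 2 * (∏ j : Fin r, δ j) * (Real.log x) ^ r := hx3.le
      _ = ε / 2 * ((∏ j : Fin r, δ j) * (Real.log x) ^ r) := by ring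
      _ ≤ _ := mul_le_mul_of_nonneg_left hW1p (by positivity)
  have hmain := wtF_diff (Q := fun j => qn (k j)) (L := L) h21 hbad x
  have e1 : {b : ∀ i : Fin r, HeightOneSpectrum (𝓞 (k i)) →₀ ℕ | (fun i => toI (b i)) ∈
      {I : ∀ j : Fin r, Ideal (𝓞 (k j)) | ∀ j : Fin r, ∃ β : 𝓞 (k j),
        Ideal.span {β} = I j}} = D1 := rfl
  rw [e1]
  change WtF (fun j => qn (k j)) L D x ≤ _
  linarith

/-- the third part: an exceptional field, proportions among the principal ideals -/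
theorem main3 (hmon : AC.S_mon) (hfin : AC.S_fin) (hexs : S_exs) (hprod : S_prod)
    (hexn : S_exn) (hbrr : S_brr) (htoi : S_toi) (hisl : S_isl) (hgen : S_gen) (hlg : S_lg)
    (hpsm : S_psm)
    (K : Type) [Field K] [NumberField K] (σ : K →+* ℂ) (hex : ExcNF σ)
    (E : IntermediateField ℚ ℂ) (hE : E.FG) (ε : ℝ) (hε : 0 < ε) (hε1 : ε < 1) :
      ∃ V : Submodule ℚ ℂ, FiniteDimensional ℚ V ∧ (∀ v ∈ V, IsAlgebraic ℚ v) ∧
        ∀ᶠ x : ℕ in atTop, ∀ r : ℕ, (1 - ε) ^ r * idsF (fun _ => K) {I : Fin r → Ideal (𝓞 K) |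
            ∀ j, ∃ β : 𝓞 K, Ideal.span {β} = I j} x ≤
          idsF (fun _ => K) {I : Fin r → Ideal (𝓞 K) |
            (∀ j, ∃ β : 𝓞 K, Ideal.span {β} = I j) ∧ ∀ (β : Fin r → 𝓞 K) (l : Fin r → ℂ),
            (∀ j, Ideal.span {β j} = I j ∧ Complex.exp (l j) = σ (β j)) →
            ∀ (n : ℕ) (α : Fin n → ℂ), (∀ i, IsAlgebraic ℚ (α i)) →
              LinearIndependent ℚ α → Disjoint (Submodule.span ℚ (range α)) V →
              AlgebraicIndependent (KL ((E : Set ℂ) ∪ range l))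
                (fun i => Complex.exp (α i))} x := by
  classical
  obtain ⟨L, hL⟩ := hisl K
  have hq : ∀ v, 2 ≤ qn K v := (htoi K).1
  obtain ⟨h, γ, hγ⟩ := hgen K
  obtain ⟨Ck, hCk, hlgk⟩ := hlg K σ h γ hγ
  obtain ⟨T, hT, hCT⟩ := fd_closure hCk
  set f := fn σ h γ with hf
  have hexc : EXC (qn K) f := (hexn K σ h γ hγ).mpr hex
  have hLc : ∀ j : ℕ, IsL (qn K) ((fun _ => L : ∀ _ : ℕ, ℕ → Finset _) j) := fun _ => hL
  obtain ⟨-, c, hc, hsm⟩ := hpsm K L hL
  obtain ⟨B, hB1, hB2⟩ := hexs _ (qn K) f hq hexc (c * ε) (mul_pos hc hε)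
  obtain ⟨L', hL', hBL, hEL⟩ := hfin _ E hB2 hE
  set L'' : Set ℂ := L' ∪ T with hL''
  have hL''f : L''.Finite := hL'.union hT
  obtain ⟨V, hVfd, hV, hcore⟩ := exists_core hL''f
  refine ⟨V, hVfd, hV, ?_⟩
  filter_upwards [hsm B ε hε.le hB1] with x hx r
  set A₀ : Set (HeightOneSpectrum (𝓞 K) →₀ ℕ) :=
    Pr K ∩ {m | ∀ v ∈ m.support, v ∈ B} with hA₀
  unfold idsF
  rw [hbrr (fun _ => K) (fun _ => L) hLc, hbrr (fun _ => K) (fun _ => L) hLc]
  have h1 := hprod (fun _ => HeightOneSpectrum (𝓞 K)) (fun _ => qn K) (fun _ => L) r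
    (fun _ => A₀) x
  have h2 := hprod (fun _ => HeightOneSpectrum (𝓞 K)) (fun _ => qn K) (fun _ => L) r
    (fun _ => Pr K) x
  rw [Finset.prod_const, Finset.card_univ, Fintype.card_fin] at h1 h2
  have h4 : WtF (fun _ => qn K) (fun _ => L) {b : ∀ _ : Fin r,
      HeightOneSpectrum (𝓞 K) →₀ ℕ | (fun i => toI (b i)) ∈
        {I : Fin r → Ideal (𝓞 K) | ∀ j, ∃ β : 𝓞 K, Ideal.span {β} = I j}} x ≤
        (Wt (qn K) (Pr K) (L x)) ^ r := by
    rw [← h2]
    apply wtF_mono
    intro b hb j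
    exact hb j
  have h0 : 0 ≤ 1 - ε := by linarith
  calc _ ≤ (1 - ε) ^ r * (Wt (qn K) (Pr K) (L x)) ^ r :=
        mul_le_mul_of_nonneg_left h4 (pow_nonneg h0 _)
    _ = ((1 - ε) * Wt (qn K) (Pr K) (L x)) ^ r := by rw [mul_pow]
    _ ≤ (Wt (qn K) A₀ (L x)) ^ r :=
        pow_le_pow_left₀ (mul_nonneg h0 (wt_nonneg _ _)) hx _
    _ = _ := h1.symm
    _ ≤ _ := by
        apply wtF_mono
        intro b hb
        refine ⟨fun j => (hb j).1, fun β l hβl n α hα hlin hdis => ?_⟩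
        have hfd : FiniteDimensional ℚ (Submodule.span ℚ (range α)) :=
          FiniteDimensional.span_of_finite ℚ (finite_range α)
        have h5 : dl L'' (Submodule.span ℚ (range α)) = 0 := by
          rw [(hcore _ hfd (span_alg hα)).1, hdis.eq_bot, dl_bot hL''f]
        have h6 := (dl_eq_zero_iff hL''f hα hlin).mp h5
        refine hmon L'' _ ?_ n _ h6
        apply union_subset
        · exact hEL.trans (AM.closure_subset_closure subset_union_left)
        · rintro _ ⟨j, rfl⟩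
          have h7 := hCT _ (hlgk (b j) (β j) (l j) (hβl j).1 (hβl j).2)
          have e : l j = (l j - Fv f (b j)) + Fv f (b j) := by ring
          rw [e]
          apply AH.add_mem_cl'
          · exact AM.closure_subset_closure subset_union_right h7
          · have h8 := AM.closure_subset_closure hBL (fv_closure (hb j).2)
            rw [Matroid.closure_closure] at h8
            exact AM.closure_subset_closure subset_union_left h8

end Pool.Agent.Lib.MP_c82530_nt.AK
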