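import Mathlib
import Pool.Agent.Lib.MP_c82530_nt.AK.Stm

set_option autoImplicit false

namespace Pool.Agent.Lib.MP_c82530_nt.AK

open Set Pool.Agent.Lib.MP_c82530_nt Pool.Agent.Lib.MP_c82530_nt.AA
  Pool.Agent.Lib.MP_c82530_nt.AG Module Filter Topology
open NumberField IsDedekindDomain

private lemma gnr_countable (K : Type) [Field K] [NumberField K] :
    Countable (HeightOneSpectrum (𝓞 K)) := by
  have h : ∀ n : ℕ, {v : HeightOneSpectrum (𝓞 K) | Ideal.absNorm v.asIdeal = n}.Finite := by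
    intro n
    refine Set.Finite.of_finite_image (f := fun v : HeightOneSpectrum (𝓞 K) => v.asIdeal) ?_ ?_
    · refine (Ideal.finite_setOfPred_absNorm_eq (S := 𝓞 K) n).subset ?_
      rintro _ ⟨v, hv, rfl⟩
      exact hv
    · intro v _ w _ hvw
      exact HeightOneSpectrum.ext hvw
  have h2 : (Set.univ : Set (HeightOneSpectrum (𝓞 K))).Countable := by
    have h3 : (Set.univ : Set (HeightOneSpectrum (𝓞 K))) ⊆
        ⋃ n : ℕ, {v : HeightOneSpectrum (𝓞 K) | Ideal.absNorm v.asIdeal = n} := by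
      intro v _
      exact Set.mem_iUnion.2 ⟨Ideal.absNorm v.asIdeal, rfl⟩
    exact (Set.countable_iUnion fun n => (h n).countable).mono h3
  exact Set.countable_univ_iff.1 h2

private lemma gnr_basis : ∃ B : Set ℂ, B.Infinite ∧ AM.Indep B := by
  obtain ⟨B, hB⟩ := exists_isTranscendenceBasis ℚ ℂ
  refine ⟨B, ?_, hB.1⟩
  intro hfin
  have h1 := IsAlgClosed.cardinal_le_max_transcendence_basis' (R := ℚ) (K' := ℂ) _ hB
  have h2 : Cardinal.mk B ≤ Cardinal.aleph0 := by
    have : Countable B := hfin.countable.to_subtype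
    exact Cardinal.mk_le_aleph0
  have h3 : Cardinal.mk ℂ ≤ Cardinal.aleph0 := by
    refine h1.trans ?_
    refine max_le (max_le Cardinal.mk_le_aleph0 h2) le_rfl
  rw [Cardinal.mk_complex] at h3
  exact absurd h3 (not_le.2 Cardinal.aleph0_lt_continuum)

theorem p_gnr (hdvn : AJ.S_dvn) : S_gnr := by
  intro K _ _
  classical
  have := gnr_countable K
  obtain ⟨B, hBinf, hBind⟩ := gnr_basis
  obtain ⟨e, he⟩ : ∃ e : HeightOneSpectrum (𝓞 K) → ℕ, Function.Injective e :=
    Countable.exists_injective_nat _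
  let g : ℕ ↪ B := hBinf.natEmbedding
  let z : HeightOneSpectrum (𝓞 K) → ℂ := fun v => (g (e v) : ℂ)
  have hz : Function.Injective z := by
    intro v w hvw
    exact he (g.injective (Subtype.ext hvw))
  refine ⟨z, ?_⟩
  rintro ⟨t, C, A, hA, hrk⟩
  have hsub : z '' A ⊆ B := by
    rintro _ ⟨v, _, rfl⟩
    exact (g (e v)).2
  have hind : AM.Indep (z '' A) := hBind.subset hsub
  rw [hind.eRk_eq_encard] at hrk
  have hfin1 : (z '' A).Finite := by
    refine Set.encard_ne_top_iff.1 ?_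
    intro htop
    rw [htop] at hrk
    exact absurd hrk (by simp)
  have hfin : A.Finite := hfin1.of_finite_image hz.injOn
  obtain ⟨P, hP⟩ := hdvn K (C + ∑ v ∈ hfin.toFinset, (qn K v : ℝ)⁻¹ + 1)
  have h1 : ∑ v ∈ P.filter (fun v => v ∉ A), (qn K v : ℝ)⁻¹ ≤ C := by
    refine hA _ fun i hi => ?_
    exact (Finset.mem_filter.1 hi).2
  have h2 : ∑ v ∈ P.filter (fun v => ¬ v ∉ A), (qn K v : ℝ)⁻¹ ≤
      ∑ v ∈ hfin.toFinset, (qn K v : ℝ)⁻¹ := by
    refine Finset.sum_le_sum_of_subset_of_nonneg ?_ ?_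
    · intro v hv
      have := (Finset.mem_filter.1 hv).2
      exact (Set.Finite.mem_toFinset hfin).2 (not_not.1 this)
    · intro v _ _
      positivity
  have h3 := Finset.sum_filter_add_sum_filter_not P (fun v => v ∉ A)
    (fun v => (qn K v : ℝ)⁻¹)
  linarith

end Pool.Agent.Lib.MP_c82530_nt.AK
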