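import Pool.Agent.Lib.MP_c82530_nt.AK.Stm

set_option autoImplicit false

namespace Pool.Agent.Lib.MP_c82530_nt.AK

open Set Pool.Agent.Lib.MP_c82530_nt Pool.Agent.Lib.MP_c82530_nt.AA
  Pool.Agent.Lib.MP_c82530_nt.AG Module Filter Topology
open NumberField IsDedekindDomain

/-- the principal part: the members of `A` outside `G` weigh at most the complement of `G`. -/
private lemma psm_key {ι : Type} (q : ι → ℕ) (A G : Set (ι →₀ ℕ)) (T : Finset (ι →₀ ℕ)) :
    Wt q A T + Wt q G T ≤ Wt q (A ∩ G) T + Wt q univ T := by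
  classical
  unfold Wt
  rw [← Finset.sum_add_distrib, ← Finset.sum_add_distrib]
  refine Finset.sum_le_sum fun m _ => ?_
  have h0 : (0 : ℝ) ≤ (nm q m : ℝ)⁻¹ := by positivity
  by_cases hA : m ∈ A <;> by_cases hG : m ∈ G <;>
    simp [Set.indicator, hA, hG]

theorem p_psm (hfra : S_fra) (hshift : S_shift) (hcls : S_cls) (hcnt : S_cnt)
    (htoi : S_toi) (hcnz : S_cnz) : S_psm := by
  classical
  intro K _ _ L hL
  have hq : ∀ v, 2 ≤ qn K v := (htoi K).1
  obtain ⟨κ, hκ, hlim⟩ := hcnz K L hL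
  obtain ⟨hMt, hLow⟩ := hcnt _ (qn K) L hq hL κ hκ hlim
  obtain ⟨J, hJ⟩ := hcls K
  have hsh := hshift _ (qn K) L hq hL univ (Pr K) J (fun m _ => by
    obtain ⟨j, hj, β, hβ⟩ := hJ m
    exact ⟨j, hj, β, hβ⟩) hLow
  refine ⟨hsh, ?_⟩
  obtain ⟨δ, hδ, hδx⟩ := hsh
  obtain ⟨C, hC, hCP⟩ := hMt
  obtain ⟨x₀, hx₀⟩ := hCP ∅
  have hup : ∀ x : ℕ, x₀ ≤ x → Wt (qn K) univ (L x) ≤ C * Real.log x := by
    intro x hx
    have h := hx₀ x hx
    have h1 : {m : HeightOneSpectrum (𝓞 K) →₀ ℕ | Disjoint m.support ∅} = univ := by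
      ext m
      simp
    rw [h1] at h
    simpa [AG.ZP] using h
  refine ⟨δ / C, by positivity, ?_⟩
  intro B ε hε hB
  filter_upwards [hδx, eventually_ge_atTop x₀] with x hx1 hx2
  have hf := hfra _ (qn K) L hq hL B (δ / C * ε) hB x
  have hk := psm_key (qn K) (Pr K) {m | ∀ v ∈ m.support, v ∈ B} (L x)
  have hu := hup x hx2
  have h1 : δ / C * ε * Wt (qn K) univ (L x) ≤ ε * (δ * Real.log x) := by
    have h2 : δ / C * ε * Wt (qn K) univ (L x) ≤ δ / C * ε * (C * Real.log x) :=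
      mul_le_mul_of_nonneg_left hu (by positivity)
    have h3 : δ / C * ε * (C * Real.log x) = ε * (δ * Real.log x) := by
      field_simp
    linarith
  have h4 : ε * (δ * Real.log x) ≤ ε * Wt (qn K) (Pr K) (L x) :=
    mul_le_mul_of_nonneg_left hx1 hε
  nlinarith

end Pool.Agent.Lib.MP_c82530_nt.AK
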