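import Pool.Agent.Lib.MP_c82530_nt.AK.Stm
import Pool.Agent.Lib.MP_c82530_nt.AC.Exc

set_option autoImplicit false

/-!
# Piece SPL: logarithms of prime numbers over an exceptional field (helper7)
-/

namespace Pool.Agent.Lib.MP_c82530_nt.AK

open Set Pool.Agent.Lib.MP_c82530_nt Pool.Agent.Lib.MP_c82530_nt.AA
  Pool.Agent.Lib.MP_c82530_nt.AG Module Filter Topology
open NumberField IsDedekindDomain

private lemma spl_ks {s : Set ℂ} {z : ℂ} : z ∈ AB.KS s ↔ z ∈ AM.closure s := mem_clF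

private lemma spl_exp {K : Type} [Field K] [NumberField K] (σ : K →+* ℂ) (p : ℕ)
    (hp : p.Prime) : Complex.exp ((Real.log (p : ℝ) : ℝ) : ℂ) = σ ((p : 𝓞 K) : K) := by
  have hp0 : (0 : ℝ) < (p : ℝ) := by exact_mod_cast hp.pos
  rw [← Complex.ofReal_exp, Real.exp_log hp0]
  simp

theorem p_spl (hlg : S_lg) (htoi : S_toi) (hgen : S_gen) (hexn : AH.S_exn) : S_spl := by
  classical
  intro K _ _ σ hE
  obtain ⟨h, γ, hγ⟩ := hgen K
  obtain ⟨t, C, A, hA2, hA3⟩ := (hexn K σ h γ hγ).2 hE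
  obtain ⟨I, hI⟩ := AM.exists_isBasis (fn σ h γ '' A) (subset_univ _)
  have hIf : I.Finite := by
    rw [← encard_ne_top_iff, hI.encard_eq_eRk]
    exact ne_top_of_le_ne_top (ENat.natCast_ne_top t) hA3
  obtain ⟨D, hD, hD2⟩ := hlg K σ h γ hγ
  obtain ⟨-, -, -, hsurj, -⟩ := htoi K
  obtain ⟨S, hS⟩ : ∃ S : Finset ℂ, Submodule.span ℚ (S : Set ℂ) = D := by
    have h1 : D.FG := (Submodule.fg_iff_finiteDimensional D).2 hD
    exact h1
  have hDc : D ≤ AB.KS (I ∪ S) := by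
    rw [← hS, Submodule.span_le]
    intro z hz
    exact spl_ks.2 (AM.mem_closure_of_mem' (Or.inr hz) (mem_univ _))
  have key : ∀ p : ℕ, (p.Prime ∧ p ∈ AJ.SP K ∧
      ¬ IsAlgebraic (IntermediateField.adjoin ℚ (I ∪ S)) ((Real.log p : ℝ) : ℂ)) →
      ∃ w : HeightOneSpectrum (𝓞 K), qn K w = p ∧ w ∉ A := by
    rintro p ⟨hp, hpS, halg⟩
    by_contra hno
    push Not at hno
    have hp0 : ((p : ℕ) : 𝓞 K) ≠ 0 := by
      exact_mod_cast hp.ne_zero
    obtain ⟨m, hm⟩ := hsurj (Ideal.span {((p : ℕ) : 𝓞 K)}) (by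
      rw [Ne, Ideal.span_singleton_eq_bot]
      exact hp0)
    have h1 := hD2 m ((p : ℕ) : 𝓞 K) _ hm.symm (spl_exp σ p hp)
    have h2 : Fv (fn σ h γ) m ∈ clF (I ∪ S) := by
      unfold Fv
      refine sum_mem fun w hw => ?_
      refine mul_mem (natCast_mem _ _) ?_
      have hmem : ((p : ℕ) : 𝓞 K) ∈ w.asIdeal := by
        have h3 : toI m ≤ w.asIdeal := by
          unfold toI Finsupp.prod
          refine (Ideal.prod_le_inf).trans ((Finset.inf_le hw).trans ?_)
          exact Ideal.pow_le_self (Finsupp.mem_support_iff.1 hw)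
        apply h3
        rw [hm]
        exact Ideal.mem_span_singleton_self _
      have hwA : w ∈ A := hno w (hpS w hmem)
      rw [mem_clF]
      have h5 : fn σ h γ w ∈ AM.closure I := by
        rw [hI.closure_eq_closure]
        exact AM.mem_closure_of_mem' ⟨w, hwA, rfl⟩ (mem_univ _)
      exact AM.closure_subset_closure subset_union_left h5
    have h6 : ((Real.log p : ℝ) : ℂ) - Fv (fn σ h γ) m ∈ clF (I ∪ S) := hDc h1
    have h7 := add_mem h6 h2
    rw [sub_add_cancel] at h7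
    exact halg (AC.isAlg_adjoin_iff.2 (mem_clF.1 h7))
  refine ⟨I ∪ S, hIf.union S.finite_toSet, ?_⟩
  rcases isEmpty_or_nonempty (HeightOneSpectrum (𝓞 K)) with hEm | hN
  · have h0 : {p : ℕ | p.Prime ∧ p ∈ AJ.SP K ∧
        ¬ IsAlgebraic (IntermediateField.adjoin ℚ (I ∪ S)) ((Real.log p : ℝ) : ℂ)} = ∅ := by
      rw [Set.eq_empty_iff_forall_notMem]
      intro p hp
      obtain ⟨w, _⟩ := key p hp
      exact hEm.elim w
    rw [h0, Set.indicator_empty]
    exact summable_zero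
  choose! g hg1 hg2 using key
  refine summable_of_sum_le (c := C) ?_ ?_
  · intro p
    exact Set.indicator_nonneg (fun _ _ => by positivity) p
  · intro u
    set Q : Finset ℕ := u.filter fun p => p.Prime ∧ p ∈ AJ.SP K ∧
      ¬ IsAlgebraic (IntermediateField.adjoin ℚ (I ∪ S)) ((Real.log p : ℝ) : ℂ) with hQ
    have hQm : ∀ p ∈ Q, p.Prime ∧ p ∈ AJ.SP K ∧
        ¬ IsAlgebraic (IntermediateField.adjoin ℚ (I ∪ S)) ((Real.log p : ℝ) : ℂ) :=
      fun p hp => (Finset.mem_filter.1 hp).2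
    have hinj : Set.InjOn g (Q : Set ℕ) := by
      intro p hp p' hp' he
      rw [← hg1 p (hQm p hp), ← hg1 p' (hQm p' hp'), he]
    calc ∑ p ∈ u, ({p : ℕ | p.Prime ∧ p ∈ AJ.SP K ∧
          ¬ IsAlgebraic (IntermediateField.adjoin ℚ (I ∪ S)) ((Real.log p : ℝ) : ℂ)}.indicator
            (fun p : ℕ => (p : ℝ)⁻¹)) p
        = ∑ p ∈ Q, (p : ℝ)⁻¹ := by
          rw [hQ, Finset.sum_filter]
          refine Finset.sum_congr rfl fun p _ => ?_
          rw [Set.indicator_apply]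
          rfl
      _ = ∑ p ∈ Q, (qn K (g p) : ℝ)⁻¹ := by
          refine Finset.sum_congr rfl fun p hp => ?_
          rw [hg1 p (hQm p hp)]
      _ = ∑ w ∈ Q.image g, (qn K w : ℝ)⁻¹ := by
          rw [Finset.sum_image hinj]
      _ ≤ C := by
          refine hA2 _ fun w hw => ?_
          obtain ⟨p, hp, rfl⟩ := Finset.mem_image.1 hw
          exact hg2 p (hQm p hp)

end Pool.Agent.Lib.MP_c82530_nt.AK
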